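import Pool.Agent.N418.CZ.Stm

/-!
# Project CZ (MP_aed2d0_al), part ITCT: the trace of a word is a trace monomial
-/

set_option autoImplicit false

namespace Pool.Agent.N618.CZ

open Module Pool.Agent.N418.CZ

/-- open path formula -/
theorem path {k : ℕ} : ∀ (n : ℕ) (M : Fin (n + 1) → Mk k) (a b : Fin k),
    (List.ofFn M).prod a b = ∑ q : Fin n → Fin k,
      ∏ i : Fin (n + 1), M i ((Fin.cons a q : Fin (n + 1) → Fin k) i)
        ((Fin.snoc q b : Fin (n + 1) → Fin k) i)
  | 0, M, a, b => by
    have h1 : (List.ofFn M).prod = M 0 := by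
      rw [List.ofFn_succ, List.ofFn_zero, List.prod_cons, List.prod_nil, mul_one]
    rw [h1, Fintype.sum_unique, Fin.prod_univ_succ, Fin.prod_univ_zero, mul_one]
    rfl
  | n + 1, M, a, b => by
    rw [List.ofFn_succ, List.prod_cons, Matrix.mul_apply]
    rw [← (Fin.consEquiv (fun _ : Fin (n + 1) => Fin k)).sum_comp]
    rw [Fintype.sum_prod_type]
    refine Finset.sum_congr rfl fun c _ => ?_
    rw [path n, Finset.mul_sum]
    refine Finset.sum_congr rfl fun q _ => ?_
    have e1 : (Fin.snoc ((Fin.consEquiv (fun _ : Fin (n + 1) => Fin k)) (c, q)) b :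
        Fin (n + 2) → Fin k) = Fin.cons c (Fin.snoc q b : Fin (n + 1) → Fin k) :=
      (Fin.cons_snoc_eq_snoc_cons c q b).symm
    have e2 : ((Fin.consEquiv (fun _ : Fin (n + 1) => Fin k)) (c, q)) =
      (Fin.cons c q : Fin (n + 1) → Fin k) := rfl
    rw [e1, e2]
    conv_rhs => rw [Fin.prod_univ_succ]
    rfl

theorem cyc {k n : ℕ} (M : Fin (n + 1) → Mk k) :
    ((List.ofFn M).prod).trace = tr (finRotate (n + 1)) M := by
  unfold tr
  rw [Matrix.trace, ← (Fin.consEquiv (fun _ : Fin (n + 1) => Fin k)).sum_comp]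
  rw [Fintype.sum_prod_type]
  refine Finset.sum_congr rfl fun a _ => ?_
  rw [Matrix.diag_apply, path n]
  refine Finset.sum_congr rfl fun q _ => ?_
  refine Finset.prod_congr rfl fun i _ => ?_
  simp only [Fin.consEquiv_apply]
  congr 1
  refine Fin.lastCases ?_ (fun j => ?_) i
  · rw [Fin.snoc_last, finRotate_last, Fin.cons_zero]
  · rw [Fin.snoc_castSucc]
    have h : finRotate (n + 1) j.castSucc = j.succ := by
      ext
      rw [coe_finRotate_of_ne_last (Fin.castSucc_lt_last j).ne]
      simp
    rw [h, Fin.cons_succ]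

theorem tr_reindex {k : ℕ} {ι κ : Type} [Fintype ι] [DecidableEq ι] [Fintype κ] [DecidableEq κ]
    (e : κ ≃ ι) (σ : Equiv.Perm κ) (x : ι → Mk k) :
    tr σ (fun a => x (e a)) = tr (e.permCongr σ) x := by
  unfold tr
  rw [← (e.arrowCongr (Equiv.refl (Fin k))).sum_comp]
  refine Finset.sum_congr rfl fun i _ => ?_
  rw [← e.prod_comp]
  refine Finset.prod_congr rfl fun s _ => ?_
  simp [Equiv.arrowCongr, Equiv.permCongr]

/-- the enumeration of a type by a list -/
theorem enum {ι : Type} [Fintype ι] [DecidableEq ι] (l : List ι)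
    (hl : (l : Multiset ι) = (Finset.univ : Finset ι).val) :
    ∃ e : Fin l.length ≃ ι, ∀ i, e i = l.get i := by
  have hn : l.Nodup := by
    have := (Finset.univ : Finset ι).nodup
    rw [← hl] at this
    exact Multiset.coe_nodup.1 this
  have hm : ∀ a, a ∈ l := by
    intro a
    have := Finset.mem_univ a
    rw [← Finset.mem_val, ← hl] at this
    exact Multiset.mem_coe.1 this
  exact ⟨hn.getEquivOfForallMemList l hm, fun i => rfl⟩

theorem word {k : ℕ} {ι : Type} [Fintype ι] [DecidableEq ι] (l : List ι)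
    (hl : (l : Multiset ι) = (Finset.univ : Finset ι).val) :
    (fun x : ι → Mk k => ((l.map x).prod).trace) ∈ T k ι := by
  obtain ⟨e, he⟩ := enum l hl
  rcases hlen : l.length with _ | n
  · have h0 : l = [] := List.length_eq_zero_iff.1 hlen
    subst h0
    have hemp : IsEmpty ι := ⟨fun a => by
      have := e.symm a
      exact Fin.elim0 this⟩
    have h1 : (fun x : ι → Mk k => ((([] : List ι).map x).prod).trace) =
        (k : ℝ) • tr (k := k) (1 : Equiv.Perm ι) := by
      funext x
      simp [tr]
    rw [h1]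
    exact Submodule.smul_mem _ _ (Submodule.subset_span ⟨_, rfl⟩)
  · refine Submodule.subset_span ⟨((finCongr hlen).symm.trans e).permCongr (finRotate (n + 1)), ?_⟩
    funext x
    rw [← tr_reindex, ← cyc]
    congr 2
    apply List.ext_get
    · simp [hlen]
    · intro i h1 h2
      rw [List.get_ofFn]
      simp [he]
      rfl

theorem trace_mem {k : ℕ} {ι : Type} [Fintype ι] [DecidableEq ι] (f : (ι → Mk k) → Mk k)
    (hf : f ∈ Pol k ι) : (fun x : ι → Mk k => (f x).trace) ∈ T k ι := by
  unfold Pol PolM at hf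
  induction hf using Submodule.span_induction with
  | mem f hf =>
    obtain ⟨l, hl, rfl⟩ := hf
    exact word l hl
  | zero =>
    have : (fun x : ι → Mk k => (((0 : (ι → Mk k) → Mk k)) x).trace) = 0 := by
      funext x; simp
    rw [this]
    exact Submodule.zero_mem _
  | add f g _ _ hf hg =>
    have : (fun x : ι → Mk k => ((f + g) x).trace) =
        (fun x : ι → Mk k => (f x).trace) + (fun x : ι → Mk k => (g x).trace) := by
      funext x; simp
    rw [this]
    exact Submodule.add_mem _ hf hg
  | smul c f _ hf =>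
    have : (fun x : ι → Mk k => ((c • f) x).trace) = c • (fun x : ι → Mk k => (f x).trace) := by
      funext x; simp
    rw [this]
    exact Submodule.smul_mem _ _ hf

theorem t_IT : S_IT := by
  intro k ι _ _ hk φ hφ
  have h1 := trace_mem _ (Submodule.mem_comap.1 hφ)
  have hk' : (k : ℝ) ≠ 0 := by
    have : 0 < k := hk
    positivity
  have h2 : φ = (k : ℝ)⁻¹ • (fun x : ι → Mk k => ((scal k ι φ) x).trace) := by
    funext x
    simp only [scal, LinearMap.coe_mk, AddHom.coe_mk, Pi.smul_apply, Matrix.trace_smul,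
      Matrix.trace_one, Fintype.card_fin, smul_eq_mul]
    field_simp
  rw [h2]
  exact Submodule.smul_mem _ _ h1

theorem last_word {n : ℕ} (l : List (Fin n))
    (hl : (l : Multiset (Fin n)) = (Finset.univ : Finset (Fin n)).val) :
    ((l.map Fin.castSucc ++ [Fin.last n] : List (Fin (n + 1))) : Multiset (Fin (n + 1))) =
      (Finset.univ : Finset (Fin (n + 1))).val := by
  rw [Fin.univ_castSuccEmb, Finset.cons_val, Finset.map_val, ← hl]
  rw [← Multiset.coe_add, Multiset.add_comm]
  rfl

theorem Im_le (k n : ℕ) : Im k n ≤ T k (Fin (n + 1)) := by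
  unfold Im
  rw [Submodule.map_le_iff_le_comap]
  unfold Pol PolM
  rw [Submodule.span_le]
  rintro f ⟨l, hl, rfl⟩
  have h := word (k := k) _ (last_word l hl)
  have h2 : trz k n (fun x => (l.map x).prod) =
      (fun x : Fin (n + 1) → Mk k => (((l.map Fin.castSucc ++ [Fin.last n]).map x).prod).trace) := by
    funext x
    simp [trz, List.map_map]
    rfl
  show trz k n (fun x => (l.map x).prod) ∈ T k (Fin (n + 1))
  rw [h2]
  exact h

theorem trz_inj (k n : ℕ) : Function.Injective (trz k n) := by
  rw [injective_iff_map_eq_zero]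
  intro f hf
  funext x
  have h : ∀ z : Mk k, (f x * z).trace = 0 := by
    intro z
    have := congrFun hf (Fin.snoc x z)
    simpa [trz] using this
  ext a b
  have h1 := h (Matrix.single b a 1)
  simpa [Matrix.trace_mul_single] using h1

theorem PF_eq (k n : ℕ) : PF ℝ k n = Pol k (Fin n) := by
  unfold PF Pol PolM
  congr 1
  ext f
  constructor
  · rintro ⟨σ, rfl⟩
    refine ⟨List.ofFn σ, ?_, ?_⟩
    · have h1 : (List.ofFn (σ : Fin n → Fin n)) = (List.finRange n).map σ := by
        exact List.ofFn_eq_map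
      rw [h1]
      have h2 : (Finset.univ : Finset (Fin n)) = Finset.univ.map σ.toEmbedding := by simp
      rw [h2]
      rfl
    · funext x
      rw [List.map_ofFn]
      rfl
  · rintro ⟨l, hl, rfl⟩
    obtain ⟨e, he⟩ := enum l hl
    have hlen : l.length = n := by
      have := Fintype.card_congr e
      simpa using this
    refine ⟨(finCongr hlen).symm.trans e, ?_⟩
    funext x
    show (List.ofFn (fun i => x (((finCongr hlen).symm.trans e) i))).prod = _
    congr 1
    apply List.ext_get
    · simp [hlen]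
    · intro i h1 h2
      simp [he]

theorem t_CT : S_CT := by
  intro k n hk
  refine ⟨?_, Im_le k n⟩
  rw [PF_eq]
  exact (LinearEquiv.finrank_eq (Submodule.equivMapOfInjective _ (trz_inj k n) _)).symm

end Pool.Agent.N618.CZ

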